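import Mathlib

/-!
# Slice rank of colourings: definitions
-/

set_option autoImplicit false

namespace Pool.Agent.TH360.SR

/-- All `k`-subsets of `S` have the same colour. -/
def Homogeneous {κ : Type*} (k : ℕ) (c : Finset ℕ → κ) (S : Finset ℕ) : Prop :=
  ∀ A ⊆ S, ∀ B ⊆ S, A.card = k → B.card = k → c A = c B

/-- The colouring `c` of the `(k + 1)`-subsets of `{0, …, N - 1}` has slice rank at most `w` over
the field `F`: there are different elements `a i` of `F` for the colours `i`, such that the
function `x ↦ a (c {x 0, …, x k})`, on the increasing `(k + 1)`-tuples of vertices, is a sum of `w`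
products of a function of one coordinate `x (p s)` and a function of the `k` other coordinates. -/
def SliceRankLE {κ : Type*} (F : Type*) [Field F] (w k N : ℕ) (c : Finset ℕ → κ) : Prop :=
  ∃ (a : κ → F) (p : Fin w → Fin (k + 1)) (f : Fin w → ℕ → F) (g : Fin w → (Fin k → ℕ) → F),
    Function.Injective a ∧ ∀ x : Fin (k + 1) → ℕ, StrictMono x → (∀ i, x i < N) →
      a (c (Finset.univ.image x)) = ∑ s, f s (x (p s)) * g s ((p s).removeNth x)

/-- The tower `2 ^ (2 ^ (… ^ x))` with `k` twos, for integers. -/
def twr : ℕ → ℕ → ℕ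
  | 0, x => x
  | k + 1, x => 2 ^ twr k x

/-- The tower `2 ^ (2 ^ (… ^ x))` with `k` twos, for real numbers. -/
noncomputable def tow : ℕ → ℝ → ℝ
  | 0, x => x
  | k + 1, x => 2 ^ tow k x

end Pool.Agent.TH360.SR
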