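import Pool.Agent.TH360.SR.Tower
import Pool.Agent.TH138.NF.Asym

/-!
# Final form
-/

set_option autoImplicit false

namespace Pool.Agent.TH360.SR

open Finset Module

theorem arith1 (ℓ m w s : ℕ) (hℓ : 1 ≤ ℓ) (hm : 1 ≤ m) : (2 * RB ℓ m (s + 1)) ^ (w + 1) ≤
    twr (s + 1) ((2 * (w + 1)) * ((2 * s + 2).factorial * (2 * ℓ * (ℓ * m)))) := by
  have h0 := RB_le ℓ m hℓ hm s
  generalize RB ℓ m (s + 1) = R at h0 ⊢
  have hX1 : 1 ≤ (2 * s + 2).factorial * (2 * ℓ * (ℓ * m)) := by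
    have := Nat.factorial_pos (2 * s + 2)
    exact Nat.one_le_iff_ne_zero.2 (by positivity)
  generalize (2 * s + 2).factorial * (2 * ℓ * (ℓ * m)) = X at h0 hX1 ⊢
  have hT : 1 ≤ twr s X := hX1.trans (le_twr _ _)
  have h1 : (2 * R) ^ (w + 1) ≤ (2 * 2 ^ twr s X) ^ (w + 1) :=
    Nat.pow_le_pow_left (Nat.mul_le_mul_left _ h0) _
  have h2 : (2 * 2 ^ twr s X) ^ (w + 1) = 2 ^ ((twr s X + 1) * (w + 1)) := by
    rw [← pow_succ', ← pow_mul]
  have h3 : 2 ^ ((twr s X + 1) * (w + 1)) ≤ 2 ^ ((2 * (w + 1)) * twr s X) := by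
    apply Nat.pow_le_pow_right (by norm_num)
    nlinarith
  have h4 : 2 ^ ((2 * (w + 1)) * twr s X) ≤ 2 ^ twr s ((2 * (w + 1)) * X) := by
    apply Nat.pow_le_pow_right (by norm_num)
    exact mul_twr s _ X (by omega) hX1
  exact h1.trans (h2.le.trans (h3.trans h4))

theorem arith2 (s q q' w n : ℕ) (hq1 : 1 ≤ q') (hq : q' ≤ q) :
    (2 * (w + 1)) * ((2 * s + 2).factorial * (2 * q' ^ ((w + 1) ^ (s + 3)) *
      (q' ^ ((w + 1) ^ (s + 3)) * (cst ((w + 1) ^ 3) q' (s + 3) * n)))) ≤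
    2 ^ ((2 + (2 * s + 2).factorial + 1 + 2 * q + (s + 3) * (q + s + 4)) *
      (w + 1) ^ (3 * s + 12)) * n := by
  have hw1 : 1 ≤ w + 1 := by omega
  have hW0 : (w + 1) ^ (3 * s + 12) = (w + 1) ^ 3 * ((w + 1) ^ 3) ^ (s + 3) := by
    rw [← pow_mul, ← pow_add]
    congr 1
    ring
  have hW2 : w + 1 ≤ (w + 1) ^ (3 * s + 12) := Nat.le_self_pow (by omega) _
  have hW3 : (w + 1) ^ (s + 3) ≤ (w + 1) ^ (3 * s + 12) := Nat.pow_le_pow_right hw1 (by omega)
  have hW1 : 1 ≤ (w + 1) ^ (3 * s + 12) := Nat.one_le_pow _ _ hw1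
  have a5 : cst ((w + 1) ^ 3) q' (s + 3) ≤
      2 ^ ((s + 3) * (q + s + 4) * (w + 1) ^ (3 * s + 12)) := by
    refine (cst_le _ _ (Nat.one_le_pow _ _ hw1) hq1 _).trans ?_
    apply Nat.pow_le_pow_right (by norm_num)
    have h1 : 1 ≤ (w + 1) ^ 3 := Nat.one_le_pow _ _ hw1
    have h2 : (w + 1) ^ 3 + q' + (s + 3) ≤ (q + s + 4) * (w + 1) ^ 3 := by
      nlinarith
    rw [hW0]
    calc (s + 3) * ((w + 1) ^ 3 + q' + (s + 3)) * ((w + 1) ^ 3) ^ (s + 3) ≤
        (s + 3) * ((q + s + 4) * (w + 1) ^ 3) * ((w + 1) ^ 3) ^ (s + 3) :=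
          Nat.mul_le_mul_right _ (Nat.mul_le_mul_left _ h2)
      _ = (s + 3) * (q + s + 4) * ((w + 1) ^ 3 * ((w + 1) ^ 3) ^ (s + 3)) := by ring
  generalize cst ((w + 1) ^ 3) q' (s + 3) = c at a5 ⊢
  generalize (w + 1) ^ (3 * s + 12) = W at hW2 hW3 hW1 a5 ⊢
  generalize (w + 1) ^ (s + 3) = V at hW3 ⊢
  generalize (2 * s + 2).factorial = f
  generalize (s + 3) * (q + s + 4) = g at a5 ⊢
  have h2W : 2 ≤ 2 ^ W := by
    calc 2 = 2 ^ 1 := rfl
      _ ≤ 2 ^ W := Nat.pow_le_pow_right (by norm_num) hW1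
  have a1 : 2 * (w + 1) ≤ 2 ^ (2 * W) := by
    have h2 : W ≤ 2 ^ W := Nat.lt_two_pow_self.le
    calc 2 * (w + 1) ≤ 2 ^ W * 2 ^ W := Nat.mul_le_mul h2W (hW2.trans h2)
      _ = 2 ^ (2 * W) := by rw [← pow_add, two_mul]
  have a2 : f ≤ 2 ^ (f * W) := by
    refine Nat.lt_two_pow_self.le.trans (Nat.pow_le_pow_right (by norm_num) ?_)
    exact Nat.le_mul_of_pos_right _ hW1
  have a4 : q' ^ V ≤ 2 ^ (q * W) := by
    have h1 : q' ≤ 2 ^ q := hq.trans Nat.lt_two_pow_self.le
    calc q' ^ V ≤ (2 ^ q) ^ V := Nat.pow_le_pow_left h1 _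
      _ = 2 ^ (q * V) := by rw [← pow_mul]
      _ ≤ 2 ^ (q * W) := Nat.pow_le_pow_right (by norm_num) (Nat.mul_le_mul_left _ hW3)
  calc (2 * (w + 1)) * (f * (2 * q' ^ V * (q' ^ V * (c * n)))) =
      (2 * (w + 1)) * (f * (2 * (q' ^ V * (q' ^ V * c)))) * n := by ring
    _ ≤ 2 ^ (2 * W) * (2 ^ (f * W) * (2 ^ W * (2 ^ (q * W) *
        (2 ^ (q * W) * 2 ^ (g * W))))) * n := by
        apply Nat.mul_le_mul_right
        exact Nat.mul_le_mul a1 (Nat.mul_le_mul a2 (Nat.mul_le_mul h2W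
          (Nat.mul_le_mul a4 (Nat.mul_le_mul a4 a5))))
    _ = 2 ^ ((2 + f + 1 + 2 * q + g) * W) * n := by
        simp only [← pow_add]
        congr 2
        ring

/-- `s + 3` is the uniformity. -/
theorem upper (s q : ℕ) : ∃ C : ℕ, ∀ w n N : ℕ,
    twr (s + 1) (2 ^ (C * (w + 1) ^ (3 * s + 12)) * n) ≤ N →
    ∀ (κ : Type) [Fintype κ], Fintype.card κ ≤ q → ∀ (F : Type) [Field F] (c : Finset ℕ → κ),
      SliceRankLE F w (s + 2) N c → ∃ S ⊆ range N, S.card = n ∧ Homogeneous (s + 3) c S := by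
  refine ⟨2 + (2 * s + 2).factorial + 1 + 2 * q + (s + 3) * (q + s + 4),
    fun w n N hN κ _ hq F _ c hc => ?_⟩
  rcases Nat.eq_zero_or_pos n with rfl | hn
  · refine ⟨∅, by simp, rfl, fun A hA B hB _ _ => ?_⟩
    rw [subset_empty.1 hA, subset_empty.1 hB]
  have hq1 : 1 ≤ Fintype.card κ := Fintype.card_pos_iff.2 ⟨c ∅⟩
  have hℓ : Fintype.card ((Fin (s + 2 + 1) → Option (Fin w)) → κ) =
      Fintype.card κ ^ ((w + 1) ^ (s + 3)) := by
    simp only [Fintype.card_fun, Fintype.card_fin, Fintype.card_option]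
  have hcst := cst_pos ((w + 1) ^ 3) (Fintype.card κ) hq1 (s + 3)
  refine reduce (k := s + 2) (w := w)
    (M := RB (Fintype.card ((Fin (s + 2 + 1) → Option (Fin w)) → κ))
      (cst ((w + 1) ^ 3) (Fintype.card κ) (s + 2 + 1) * n) (s + 1)) c hc ?_ (arr_RB _ _ (s + 1))
  rw [hℓ]
  refine (arith1 _ _ w s (Nat.one_le_pow _ _ hq1)
    (Nat.one_le_iff_ne_zero.2 (by positivity))).trans ?_
  refine (twr_mono (s + 1) ?_).trans hN
  exact arith2 s q (Fintype.card κ) w n hq1 hq

theorem twr_cast (k x : ℕ) : ((twr k x : ℕ) : ℝ) = tow k x := by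
  induction k with
  | zero => rfl
  | succ k ih =>
    show ((2 ^ twr k x : ℕ) : ℝ) = 2 ^ tow k x
    rw [← ih]
    push_cast
    rw [Real.rpow_natCast]

theorem tow_two (k : ℕ) (x : ℝ) : tow k (2 ^ x) = tow (k + 1) x := by
  induction k with
  | zero => rfl
  | succ k ih =>
    show 2 ^ tow k (2 ^ x) = 2 ^ tow (k + 1) x
    rw [ih]

theorem tow_mono' (k : ℕ) {x y : ℝ} (h : x ≤ y) : tow k x ≤ tow k y := by
  induction k with
  | zero => exact h
  | succ k ih => exact Real.rpow_le_rpow_of_exponent_le (by norm_num) ih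

/-- Tower growth of full height needs large slice rank. -/
theorem full_height (s q : ℕ) (ε : ℝ) (hε : 0 < ε) : ∃ δ : ℝ, 0 < δ ∧ ∃ n₀ : ℕ, ∀ n : ℕ, n₀ ≤ n →
    ∀ w N : ℕ, ((w : ℝ) + 1) ^ (3 * s + 12) ≤ δ * n → tow (s + 2) (ε * n) ≤ N →
    ∀ (κ : Type) [Fintype κ], Fintype.card κ ≤ q → ∀ (F : Type) [Field F] (c : Finset ℕ → κ),
      SliceRankLE F w (s + 2) N c → ∃ S ⊆ range N, S.card = n ∧ Homogeneous (s + 3) c S := by
  obtain ⟨C, hC⟩ := upper s q
  obtain ⟨n₀, hn₀⟩ := Pool.Agent.TH138.NF.nat_le_rpow (ε / 2) (by positivity)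
  refine ⟨ε / (2 * (C + 1)), by positivity, n₀, fun n hn w N hw hN κ _ hq F _ c hc => ?_⟩
  refine hC w n N ?_ κ hq F c hc
  have h1 : ((twr (s + 1) (2 ^ (C * (w + 1) ^ (3 * s + 12)) * n) : ℕ) : ℝ) ≤ N := by
    rw [twr_cast]
    refine le_trans ?_ hN
    rw [← tow_two (s + 1)]
    apply tow_mono'
    push_cast
    have h2 : (C : ℝ) * ((w : ℝ) + 1) ^ (3 * s + 12) ≤ ε / 2 * n := by
      have h3 : (C : ℝ) ≤ C + 1 := by linarith
      calc (C : ℝ) * ((w : ℝ) + 1) ^ (3 * s + 12) ≤ (C + 1) * ((w : ℝ) + 1) ^ (3 * s + 12) := by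
            apply mul_le_mul_of_nonneg_right h3
            positivity
        _ ≤ (C + 1) * (ε / (2 * (C + 1)) * n) := by
            apply mul_le_mul_of_nonneg_left hw
            positivity
        _ = ε / 2 * n := by
            field_simp
    calc (2 : ℝ) ^ (C * (w + 1) ^ (3 * s + 12)) * n =
        (2 : ℝ) ^ ((C : ℝ) * ((w : ℝ) + 1) ^ (3 * s + 12)) * n := by
          congr 1
          rw [← Real.rpow_natCast]
          push_cast
          rfl
      _ ≤ 2 ^ (ε / 2 * n) * 2 ^ (ε / 2 * n) := by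
          apply mul_le_mul _ (hn₀ n hn) (Nat.cast_nonneg _) (by positivity)
          exact Real.rpow_le_rpow_of_exponent_le (by norm_num) h2
      _ = 2 ^ (ε * n) := by
          rw [← Real.rpow_add (by norm_num)]
          congr 1
          ring
  exact_mod_cast h1

/-- Sharpness: colourings of slice rank one with the Ramsey numbers of the smaller uniformity. -/
theorem lower (k N n : ℕ) (c : Finset ℕ → Bool)
    (hc : ∀ S ⊆ range N, S.card = n → ¬ Homogeneous k c S) :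
    ∃ c' : Finset ℕ → Bool, (∀ (F : Type) [Field F], SliceRankLE F 1 k N c') ∧
      ∀ S ⊆ range N, S.card = n + 1 → ¬ Homogeneous (k + 1) c' S := by
  classical
  refine ⟨fun A => if h : A.Nonempty then c (A.erase (A.max' h)) else true, ?_, ?_⟩
  · intro F _
    refine ⟨fun b => if b then 1 else 0, fun _ => Fin.last k, fun _ _ => 1,
      fun _ y => if c (univ.image y) then 1 else 0, ?_, ?_⟩
    · intro a b hab
      cases a <;> cases b <;> simp_all
    · intro x hx _
      have hne : (univ.image x).Nonempty := ⟨x 0, mem_image_of_mem _ (mem_univ _)⟩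
      beta_reduce
      rw [dif_pos hne]
      have hmax : (univ.image x).max' hne = x (Fin.last k) := by
        apply le_antisymm
        · apply max'_le
          intro y hy
          obtain ⟨i, -, rfl⟩ := mem_image.1 hy
          exact hx.monotone (Fin.le_last i)
        · exact le_max' _ _ (mem_image_of_mem _ (mem_univ _))
      have himg : (univ.image x).erase ((univ.image x).max' hne) =
          univ.image ((Fin.last k).removeNth x) := by
        rw [hmax]
        ext y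
        simp only [mem_erase, mem_image, mem_univ, true_and, Fin.removeNth, Fin.succAbove_last]
        constructor
        · rintro ⟨hy, i, rfl⟩
          rcases Fin.eq_castSucc_or_eq_last i with ⟨j, rfl⟩ | rfl
          · exact ⟨j, rfl⟩
          · exact absurd rfl hy
        · rintro ⟨j, rfl⟩
          exact ⟨(hx (Fin.castSucc_lt_last j)).ne, j.castSucc, rfl⟩
      rw [himg]
      simp
  · intro S hS hSc hHom
    have hne : S.Nonempty := card_pos.1 (by omega)
    refine hc (S.erase (S.max' hne)) ((erase_subset _ _).trans hS)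
      (by rw [card_erase_of_mem (max'_mem _ _), hSc]; rfl) ?_
    have key : ∀ A ⊆ S.erase (S.max' hne), A.card = k →
        (insert (S.max' hne) A ⊆ S ∧ (insert (S.max' hne) A).card = k + 1 ∧
        (if h : (insert (S.max' hne) A).Nonempty then
          c ((insert (S.max' hne) A).erase ((insert (S.max' hne) A).max' h)) else true) = c A) := by
      intro A hA hAc
      have hnot : S.max' hne ∉ A := fun h => (mem_erase.1 (hA h)).1 rfl
      refine ⟨?_, by rw [card_insert_of_notMem hnot, hAc], ?_⟩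
      · intro x hx
        rcases mem_insert.1 hx with rfl | hx
        · exact max'_mem _ _
        · exact mem_of_mem_erase (hA hx)
      · rw [dif_pos (insert_nonempty _ _)]
        have hmax : (insert (S.max' hne) A).max' (insert_nonempty _ _) = S.max' hne := by
          apply le_antisymm
          · apply max'_le
            intro y hy
            rcases mem_insert.1 hy with rfl | hy
            · exact le_rfl
            · exact le_max' _ _ (mem_of_mem_erase (hA hy))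
          · exact le_max' _ _ (mem_insert_self _ _)
        rw [hmax, erase_insert hnot]
    intro A hA B hB hAc hBc
    obtain ⟨a1, a2, a3⟩ := key A hA hAc
    obtain ⟨b1, b2, b3⟩ := key B hB hBc
    rw [← a3, ← b3]
    exact hHom _ a1 _ b1 a2 b2

end Pool.Agent.TH360.SR
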