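import Pool.Agent.TH360.SR.Ident

/-!
# Vertices separated by reference points
-/

set_option autoImplicit false

namespace Pool.Agent.TH360.SR

open Finset Module

theorem exists_gaps {F : Type*} [Field F] {w : ℕ} (Φ : ℕ → (Fin w → F)) (M N : ℕ) (hM : 1 ≤ M)
    (hN : (2 * M) ^ (w + 1) ≤ N) :
    ∃ (K : ℕ → ℕ) (y : ℕ → Fin w → ℕ) (b : ℕ → Fin w → (Fin w → F) →ₗ[F] F),
      StrictMono K ∧ (∀ h < M, K h < N) ∧ (∀ s < M, ∀ j, y s j < K s) ∧
      (∀ h s, h < s → s < M → ∀ j, K h < y s j) ∧
      ∀ s < M, ∀ h < M, ∑ j, b s j (Φ (K h)) • Φ (y s j) = Φ (K h) := by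
  classical
  have hr : finrank F (Submodule.span F (Φ '' Set.Ico 0 (0 + (2 * M) ^ (w + 1)))) ≤ w := by
    have h1 := Submodule.finrank_le (Submodule.span F (Φ '' Set.Ico 0 (0 + (2 * M) ^ (w + 1))))
    rw [Module.finrank_fin_fun] at h1
    exact h1
  obtain ⟨a, L, -, hL, hle, hspan⟩ := blocks Φ (2 * M) (by omega) w 0 hr
  have hex : ∀ s, ∃ (y : Fin w → ℕ) (b : Fin w → (Fin w → F) →ₗ[F] F),
      (∀ j, y j ∈ Set.Ico (a + (2 * s) * L) (a + (2 * s + 1) * L)) ∧
      ∀ v ∈ Submodule.span F (Φ '' Set.Ico (a + (2 * s) * L) (a + (2 * s + 1) * L)),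
        ∑ j, b j v • Φ (y j) = v := by
    intro s
    apply refs
    refine ⟨a + (2 * s) * L, ?_⟩
    simp only [Set.mem_Ico, le_refl, true_and]
    have : (2 * s + 1) * L = (2 * s) * L + L := by ring
    omega
  choose y b hy hb using hex
  refine ⟨fun h => a + (2 * h + 1) * L, y, b, ?_, ?_, ?_, ?_, ?_⟩
  · intro h h' hh
    show a + (2 * h + 1) * L < a + (2 * h' + 1) * L
    have : (2 * h + 1) * L < (2 * h' + 1) * L := Nat.mul_lt_mul_of_pos_right (by omega) hL
    omega
  · intro h hh
    show a + (2 * h + 1) * L < N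
    have h1 : (2 * h + 1) * L < (2 * M) * L := Nat.mul_lt_mul_of_pos_right (by omega) hL
    omega
  · intro s hs j
    exact (hy s j).2
  · intro h s hhs hs j
    show a + (2 * h + 1) * L < y s j
    have h1 : (2 * h + 1) * L < (2 * s) * L := Nat.mul_lt_mul_of_pos_right (by omega) hL
    have h2 := (hy s j).1
    omega
  · intro s hs h hh
    apply hb
    rw [hspan (2 * s) (by omega)]
    apply Submodule.subset_span
    refine ⟨_, ?_, rfl⟩
    simp only [Set.mem_Ico]
    have h1 : (2 * h + 1) * L < (2 * M) * L := Nat.mul_lt_mul_of_pos_right (by omega) hL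
    omega

section

variable {k w : ℕ} {M : ℕ} {K : ℕ → ℕ} {y : ℕ → Fin w → ℕ}

theorem prv_le {h : Fin (k + 1) → ℕ} (hh : StrictMono h) (i : Fin (k + 1)) : prv h i ≤ h i := by
  refine Fin.cases ?_ (fun i => ?_) i
  · simp [prv]
  · simp only [prv, Fin.cons_succ]
    exact hh Fin.castSucc_lt_succ

theorem zz_mono (hK : StrictMono K) (h1 : ∀ s < M, ∀ j, y s j < K s)
    (h2 : ∀ h s, h < s → s < M → ∀ j, K h < y s j) {h : Fin (k + 1) → ℕ} (hh : StrictMono h)
    (hM : ∀ i, h i < M) (α : Fin (k + 1) → Option (Fin w)) :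
    StrictMono (fun i => zz K y h i (α i)) := by
  rw [Fin.strictMono_iff_lt_succ]
  intro i
  have e1 : zz K y h i.castSucc (α i.castSucc) ≤ K (h i.castSucc) := by
    cases α i.castSucc with
    | none => exact le_rfl
    | some j =>
      show y (prv h i.castSucc) j ≤ _
      have h3 := prv_le hh i.castSucc
      exact (h1 _ (lt_of_le_of_lt h3 (hM _)) j).le.trans (hK.monotone h3)
  have e2 : K (h i.castSucc) < zz K y h i.succ (α i.succ) := by
    have h4 : h i.castSucc < h i.succ := hh Fin.castSucc_lt_succ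
    cases α i.succ with
    | none => exact hK h4
    | some j =>
      show _ < y (prv h i.succ) j
      simp only [prv, Fin.cons_succ]
      exact h2 _ _ (Nat.lt_succ_self _) (by have := hM i.succ; omega) j
  exact lt_of_le_of_lt e1 e2

theorem zz_lt {N : ℕ} (hN : ∀ h < M, K h < N) (h1 : ∀ s < M, ∀ j, y s j < K s)
    {h : Fin (k + 1) → ℕ} (hh : StrictMono h)
    (hM : ∀ i, h i < M) (i : Fin (k + 1)) (o : Option (Fin w)) : zz K y h i o < N := by
  cases o with
  | none => exact hN _ (hM i)
  | some j =>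
    have h3 : prv h i < M := lt_of_le_of_lt (prv_le hh i) (hM i)
    exact (h1 _ h3 j).trans (hN _ h3)

/-- the last replaced coordinate -/
noncomputable def mm {O : Type*} (α : Fin (k + 1) → Option O) : Fin (k + 1) :=
  open Classical in if h : ∃ m, α m ≠ none ∧ ∀ i, m < i → α i = none then h.choose else 0

theorem mm_spec {O : Type*} (α : Fin (k + 1) → Option O) (hα : α ≠ fun _ => none) :
    α (mm α) ≠ none ∧ ∀ i, mm α < i → α i = none := by
  classical
  have h : ∃ m, α m ≠ none ∧ ∀ i, m < i → α i = none := by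
    have hne : (univ.filter (fun i => α i ≠ none)).Nonempty := by
      by_contra hcon
      rw [not_nonempty_iff_eq_empty, filter_eq_empty_iff] at hcon
      apply hα
      funext i
      have := hcon (mem_univ i)
      simpa using this
    refine ⟨(univ.filter (fun i => α i ≠ none)).max' hne, ?_, ?_⟩
    · exact (mem_filter.1 (max'_mem _ hne)).2
    · intro i hi
      by_contra hcon
      have := le_max' (univ.filter (fun i => α i ≠ none)) i (mem_filter.2 ⟨mem_univ _, hcon⟩)
      exact absurd hi (not_lt.2 this)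
  unfold mm
  rw [dif_pos h]
  exact h.choose_spec

/-- The tuple does not depend on the last replaced coordinate. -/
theorem zz_indep (h : Fin (k + 1) → ℕ) (α : Fin (k + 1) → Option (Fin w))
    (hα : α ≠ fun _ => none) (x : ℕ) :
    (fun i => zz K y h i (α i)) =
      fun i => zz K y ((mm α).insertNth x ((mm α).removeNth h) : Fin (k + 1) → ℕ) i (α i) := by
  obtain ⟨h1, h2⟩ := mm_spec α hα
  have hoff : ∀ i, i ≠ mm α →
      ((mm α).insertNth x ((mm α).removeNth h) : Fin (k + 1) → ℕ) i = h i := by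
    intro i hi
    obtain ⟨j, rfl⟩ := Fin.exists_succAbove_eq hi
    simp [Fin.removeNth]
  funext i
  cases hi : α i with
  | none =>
    have hne : i ≠ mm α := by
      rintro rfl
      exact h1 hi
    simp only [zz]
    rw [hoff i hne]
  | some j =>
    have hle : i ≤ mm α := by
      by_contra hcon
      rw [h2 i (not_le.1 hcon)] at hi
      exact absurd hi (by simp)
    simp only [zz]
    congr 1
    revert hle
    refine Fin.cases ?_ (fun i => ?_) i
    · intro _
      simp [prv]
    · intro hle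
      simp only [prv, Fin.cons_succ]
      rw [hoff]
      exact (lt_of_lt_of_le Fin.castSucc_lt_succ hle).ne

end

end Pool.Agent.TH360.SR
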