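import Mathlib

/-!
# Multilinear forms with few values on increasing tuples

Let `ρ x` (`x` an integer) be vectors of `F ^ ι` and let `ev ρ κ x` be a multilinear form (with
coefficients `κ`) in `ρ (x 0), …, ρ (x (r - 1))`. If all its values on the increasing `r`-tuples of
`H` are in the finite set `A`, then it is constant on the increasing `r`-tuples of a subset of size
at least a constant times the size of `H`.
-/

set_option autoImplicit false

namespace Pool.Agent.TH360.SR

open Finset Module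

variable {F ι : Type*} [Field F] [Fintype ι]

/-- a multilinear form in the vectors `ρ (x i)` -/
def ev {r : ℕ} (ρ : ℕ → ι → F) (κ : (Fin r → ι) → F) (x : Fin r → ℕ) : F :=
  ∑ τ : Fin r → ι, κ τ * ∏ i, ρ (x i) (τ i)

/-- the coefficients of the form if the last vector is `v` -/
def fixLast {r : ℕ} (κ : (Fin (r + 1) → ι) → F) (v : ι → F) : (Fin r → ι) → F :=
  fun τ => ∑ t, κ (Fin.snoc τ t : Fin (r + 1) → ι) * v t

theorem ev_snoc {r : ℕ} (ρ : ℕ → ι → F) (κ : (Fin (r + 1) → ι) → F) (x : Fin r → ℕ) (z : ℕ) :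
    ev ρ κ (Fin.snoc x z : Fin (r + 1) → ℕ) = ev ρ (fixLast κ (ρ z)) x := by
  unfold ev fixLast
  rw [← (Fin.snocEquiv (fun _ : Fin (r + 1) => ι)).sum_comp, Fintype.sum_prod_type, Finset.sum_comm]
  refine Finset.sum_congr rfl fun τ _ => ?_
  rw [Finset.sum_mul]
  refine Finset.sum_congr rfl fun t _ => ?_
  have h1 : (Fin.snocEquiv (fun _ : Fin (r + 1) => ι)) (t, τ) = (Fin.snoc τ t : Fin (r + 1) → ι) :=
    rfl
  rw [h1, Fin.prod_univ_castSucc]
  simp only [Fin.snoc_castSucc, Fin.snoc_last]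
  ring

/-- `ev` is a linear function of the last vector -/
def evLast {r : ℕ} (ρ : ℕ → ι → F) (κ : (Fin (r + 1) → ι) → F) (x : Fin r → ℕ) :
    (ι → F) →ₗ[F] F where
  toFun v := ev ρ (fixLast κ v) x
  map_add' v v' := by
    simp only [ev, fixLast, Pi.add_apply, mul_add, Finset.sum_add_distrib, add_mul]
  map_smul' a v := by
    simp only [ev, fixLast, Pi.smul_apply, smul_eq_mul, RingHom.id_apply, Finset.mul_sum,
      Finset.sum_mul]
    refine Finset.sum_congr rfl fun τ _ => Finset.sum_congr rfl fun t _ => ?_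
    ring

theorem ev_snoc_sum {r : ℕ} (ρ : ℕ → ι → F) (κ : (Fin (r + 1) → ι) → F) (x : Fin r → ℕ) (y : ℕ)
    (Z : Finset ℕ) (ν : ℕ → F) (h : ∑ z ∈ Z, ν z • ρ z = ρ y) :
    ev ρ κ (Fin.snoc x y : Fin (r + 1) → ℕ) =
      ∑ z ∈ Z, ν z * ev ρ (fixLast κ (ρ z)) x := by
  rw [ev_snoc]
  change evLast ρ κ x (ρ y) = _
  rw [← h, map_sum]
  refine Finset.sum_congr rfl fun z _ => ?_
  rw [map_smul]
  rfl

/-- the `ℓ` smallest elements -/
theorem low (H : Finset ℕ) : ∀ ℓ, ℓ ≤ H.card → ∃ I ⊆ H, I.card = ℓ ∧ ∀ x ∈ I, ∀ y ∈ H \ I, x < y := by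
  intro ℓ
  induction ℓ with
  | zero => intro _; exact ⟨∅, by simp, by simp, by simp⟩
  | succ ℓ ih =>
    intro h
    obtain ⟨I, hI, hc, hlt⟩ := ih (by omega)
    have hne : (H \ I).Nonempty := by
      rw [← card_pos, card_sdiff_of_subset hI]
      omega
    set m := (H \ I).min' hne with hm
    have hmem : m ∈ H \ I := min'_mem _ hne
    have hmI : m ∉ I := (mem_sdiff.1 hmem).2
    refine ⟨insert m I, ?_, ?_, ?_⟩
    · intro x hx
      rcases mem_insert.1 hx with rfl | hx
      · exact (mem_sdiff.1 hmem).1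
      · exact hI hx
    · rw [card_insert_of_notMem hmI, hc]
    · intro x hx y hy
      have hy' : y ∈ H \ I := by
        rw [mem_sdiff] at hy ⊢
        exact ⟨hy.1, fun h => hy.2 (mem_insert_of_mem h)⟩
      have hym : y ≠ m := by
        rintro rfl
        exact (mem_sdiff.1 hy).2 (mem_insert_self _ _)
      have h1 : m < y := lt_of_le_of_ne (min'_le _ _ hy') (fun e => hym e.symm)
      rcases mem_insert.1 hx with rfl | hx
      · exact h1
      · exact hlt x hx y hy'

/-- A final segment with few spanning vectors. -/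
theorem interval (ρ : ℕ → ι → F) (ℓ : ℕ) : ∀ (d : ℕ) (H : Finset ℕ),
    finrank F (Submodule.span F (ρ '' (H : Set ℕ))) ≤ d → (d + 1) * ℓ ≤ H.card →
    ∃ I ⊆ H, ∃ Z ⊆ H, I.card = ℓ ∧ Z.card ≤ Fintype.card ι ∧ (∀ x ∈ I, ∀ z ∈ Z, x < z) ∧
      ∀ x ∈ I, ρ x ∈ Submodule.span F (ρ '' (Z : Set ℕ)) := by
  classical
  intro d
  induction d with
  | zero =>
    intro H hd hH
    obtain ⟨I, hI, hc, hlt⟩ := low H ℓ (by simpa using hH)
    refine ⟨I, hI, ∅, by simp, hc, by simp, by simp, fun x hx => ?_⟩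
    have h0 := Submodule.finrank_eq_zero.1 (Nat.le_zero.1 hd)
    have h1 : ρ x ∈ Submodule.span F (ρ '' (H : Set ℕ)) :=
      Submodule.subset_span ⟨x, hI hx, rfl⟩
    rw [h0] at h1
    simpa using h1
  | succ d ih =>
    intro H hd hH
    obtain ⟨I, hI, hc, hlt⟩ := low H ℓ (by nlinarith)
    by_cases hs : Submodule.span F (ρ '' ((H \ I : Finset ℕ) : Set ℕ)) =
        Submodule.span F (ρ '' (H : Set ℕ))
    · obtain ⟨t, hts, htc, htspan, -⟩ :=
        Submodule.exists_finset_span_eq_linearIndepOn F (ρ '' ((H \ I : Finset ℕ) : Set ℕ))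
      have hch : ∀ v : t, ∃ z, z ∈ H \ I ∧ ρ z = v.1 := by
        intro v
        obtain ⟨z, hz, hzv⟩ := hts v.2
        exact ⟨z, by simpa using hz, hzv⟩
      choose z hz hzv using hch
      refine ⟨I, hI, univ.image z, ?_, hc, ?_, ?_, ?_⟩
      · intro y hy
        obtain ⟨v, -, rfl⟩ := mem_image.1 hy
        exact (mem_sdiff.1 (hz v)).1
      · refine card_image_le.trans ?_
        rw [card_univ, Fintype.card_coe, htc]
        have := Submodule.finrank_le (Submodule.span F (ρ '' ((H \ I : Finset ℕ) : Set ℕ)))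
        rwa [Module.finrank_fintype_fun_eq_card] at this
      · intro x hx y hy
        obtain ⟨v, -, rfl⟩ := mem_image.1 hy
        exact hlt x hx _ (hz v)
      · intro x hx
        have h1 : ρ x ∈ Submodule.span F (ρ '' (H : Set ℕ)) :=
          Submodule.subset_span ⟨x, hI hx, rfl⟩
        rw [← hs, ← htspan] at h1
        refine Submodule.span_mono ?_ h1
        intro v hv
        refine ⟨z ⟨v, hv⟩, ?_, hzv _⟩
        simp
    · have hle : Submodule.span F (ρ '' ((H \ I : Finset ℕ) : Set ℕ)) ≤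
          Submodule.span F (ρ '' (H : Set ℕ)) := by
        apply Submodule.span_mono
        apply Set.image_mono
        exact_mod_cast sdiff_subset
      have hlt' := Submodule.finrank_lt_finrank_of_lt (lt_of_le_of_ne hle hs)
      obtain ⟨I', hI', Z, hZ, h1, h2, h3, h4⟩ := ih (H \ I) (by omega) (by
        rw [card_sdiff_of_subset hI, hc]
        have : (d + 1 + 1) * ℓ = (d + 1) * ℓ + ℓ := by ring
        omega)
      exact ⟨I', hI'.trans sdiff_subset, Z, hZ.trans sdiff_subset, h1, h2, h3, h4⟩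

/-- the constant -/
def cst (D q : ℕ) : ℕ → ℕ
  | 0 => 1
  | r + 1 => (D + 1) * (cst D q r ^ D * (q + r))

theorem cst_succ (D q r : ℕ) : cst D q (r + 1) = (D + 1) * (cst D q r ^ D * (q + r)) := rfl

theorem iter {r : ℕ} (ρ : ℕ → ι → F) (A : Finset F) (C : ℕ) (hC : 1 ≤ C)
    (hIH : ∀ (κ : (Fin r → ι) → F) (H : Finset ℕ) (n : ℕ), 1 ≤ n → C * n ≤ H.card →
      (∀ x : Fin r → ℕ, StrictMono x → (∀ i, x i ∈ H) → ev ρ κ x ∈ A) →
      ∃ H' ⊆ H, n ≤ H'.card ∧ ∃ a, ∀ x : Fin r → ℕ, StrictMono x → (∀ i, x i ∈ H') →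
        ev ρ κ x = a)
    (K : ℕ → ((Fin r → ι) → F)) (Z : Finset ℕ) : ∀ (H : Finset ℕ) (n : ℕ), 1 ≤ n →
      C ^ Z.card * n ≤ H.card →
      (∀ z ∈ Z, ∀ x : Fin r → ℕ, StrictMono x → (∀ i, x i ∈ H) → ev ρ (K z) x ∈ A) →
      ∃ H' ⊆ H, n ≤ H'.card ∧ ∀ z ∈ Z, ∃ a, ∀ x : Fin r → ℕ, StrictMono x → (∀ i, x i ∈ H') →
        ev ρ (K z) x = a := by
  classical
  induction Z using Finset.induction_on with
  | empty =>
    intro H n hn hH _
    exact ⟨H, Subset.rfl, by simpa using hH, by simp⟩
  | insert z Z hz ih =>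
    intro H n hn hH hA
    rw [card_insert_of_notMem hz] at hH
    obtain ⟨H₁, h1, h2, h3⟩ := ih H (C * n) (Nat.one_le_iff_ne_zero.2 (by positivity)) (by
      calc C ^ Z.card * (C * n) = C ^ (Z.card + 1) * n := by ring
        _ ≤ _ := hH) (fun z' hz' => hA z' (mem_insert_of_mem hz'))
    obtain ⟨H₂, h4, h5, a, h6⟩ := hIH (K z) H₁ n hn h2
      (fun x hx hxH => hA z (mem_insert_self _ _) x hx (fun i => h1 (hxH i)))
    refine ⟨H₂, h4.trans h1, h5, fun z' hz' => ?_⟩
    rcases mem_insert.1 hz' with rfl | hz'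
    · exact ⟨a, h6⟩
    · obtain ⟨a', ha'⟩ := h3 z' hz'
      exact ⟨a', fun x hx hxH => ha' x hx (fun i => h4 (hxH i))⟩

theorem cst_pos (D q : ℕ) (hq : 1 ≤ q) : ∀ r, 1 ≤ cst D q r
  | 0 => le_rfl
  | r + 1 => by
    unfold cst
    have := cst_pos D q hq r
    exact Nat.one_le_iff_ne_zero.2 (by positivity)

theorem ml (ρ : ℕ → ι → F) (A : Finset F) (hA : 1 ≤ A.card) : ∀ (r : ℕ) (κ : (Fin r → ι) → F)
    (H : Finset ℕ) (n : ℕ), 1 ≤ n → cst (Fintype.card ι) A.card r * n ≤ H.card →
    (∀ x : Fin r → ℕ, StrictMono x → (∀ i, x i ∈ H) → ev ρ κ x ∈ A) →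
    ∃ H' ⊆ H, n ≤ H'.card ∧ ∃ a, ∀ x : Fin r → ℕ, StrictMono x → (∀ i, x i ∈ H') →
      ev ρ κ x = a := by
  classical
  intro r
  induction r with
  | zero =>
    intro κ H n hn hH _
    refine ⟨H, Subset.rfl, by simpa [cst] using hH, ev ρ κ Fin.elim0, fun x _ _ => ?_⟩
    rw [Subsingleton.elim x Fin.elim0]
  | succ r ih =>
    intro κ H n hn hH hval
    set D := Fintype.card ι with hD
    set q := A.card with hq
    have hrank : finrank F (Submodule.span F (ρ '' (H : Set ℕ))) ≤ D := by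
      have := Submodule.finrank_le (Submodule.span F (ρ '' (H : Set ℕ)))
      rwa [Module.finrank_fintype_fun_eq_card] at this
    have hC := cst_pos D q hA r
    obtain ⟨I, hI, Z, hZ, hIc, hZc, hIZ, hspan⟩ := interval ρ (cst D q r ^ D * ((q + r) * n)) D H
      hrank (by
        calc (D + 1) * (cst D q r ^ D * ((q + r) * n)) = cst D q (r + 1) * n := by
              rw [cst_succ]; ring
          _ ≤ _ := hH)
    obtain ⟨I', hI', hI'c, hconst⟩ := iter ρ A (cst D q r) hC
      (fun κ H n hn hH hx => ih κ H n hn hH hx) (fun z => fixLast κ (ρ z)) Z I ((q + r) * n)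
      (Nat.one_le_iff_ne_zero.2 (by positivity)) (by
        rw [hIc]
        exact Nat.mul_le_mul_right _ (Nat.pow_le_pow_right hC hZc)) (by
        intro z hz x hx hxI
        rw [← ev_snoc]
        apply hval
        · rw [Fin.strictMono_iff_lt_succ]
          intro i
          rcases Fin.eq_castSucc_or_eq_last i.succ with ⟨j, hj⟩ | hj
          · rw [hj]
            simp only [Fin.snoc_castSucc]
            apply hx
            rw [Fin.lt_def]
            have := congrArg Fin.val hj
            simp at this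
            omega
          · rw [hj]
            simp only [Fin.snoc_castSucc, Fin.snoc_last]
            exact hIZ _ (hxI i) z hz
        · intro i
          rcases Fin.eq_castSucc_or_eq_last i with ⟨j, rfl⟩ | rfl
          · simp only [Fin.snoc_castSucc]
            exact hI (hxI j)
          · simp only [Fin.snoc_last]
            exact hZ hz)
    -- the values depend only on the last vertex
    choose! a ha using hconst
    have hcoef : ∀ y ∈ I, ∃ ν : ℕ → F, ∑ z ∈ Z, ν z • ρ z = ρ y := by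
      intro y hy
      have := hspan y hy
      rwa [Submodule.mem_span_image_finset_iff_exists_fun'] at this
    choose! ν hν using hcoef
    have hdep : ∀ x : Fin r → ℕ, StrictMono x → (∀ i, x i ∈ I') → ∀ y ∈ I',
        ev ρ κ (Fin.snoc x y : Fin (r + 1) → ℕ) = ∑ z ∈ Z, ν y z * a z := by
      intro x hx hxI y hy
      rw [ev_snoc_sum ρ κ x y Z (ν y) (hν y (hI' hy))]
      refine Finset.sum_congr rfl fun z hz => ?_
      rw [ha z hz x hx hxI]
    obtain ⟨L, hL, hLc, hLlt⟩ := low I' r (by nlinarith)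
    -- the value for the vertices after the first `r` ones
    have hval' : ∀ y ∈ I' \ L, (∑ z ∈ Z, ν y z * a z) ∈ A := by
      intro y hy
      rw [← hdep (L.orderEmbOfFin hLc) (L.orderEmbOfFin hLc).strictMono
        (fun i => hL (orderEmbOfFin_mem _ _ _)) y (mem_sdiff.1 hy).1]
      apply hval
      · rw [Fin.strictMono_iff_lt_succ]
        intro i
        rcases Fin.eq_castSucc_or_eq_last i.succ with ⟨j, hj⟩ | hj
        · rw [hj]
          simp only [Fin.snoc_castSucc]
          apply (L.orderEmbOfFin hLc).strictMono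
          rw [Fin.lt_def]
          have := congrArg Fin.val hj
          simp at this
          omega
        · rw [hj]
          simp only [Fin.snoc_castSucc, Fin.snoc_last]
          exact hLlt _ (orderEmbOfFin_mem _ _ _) y hy
      · intro i
        rcases Fin.eq_castSucc_or_eq_last i with ⟨j, rfl⟩ | rfl
        · simp only [Fin.snoc_castSucc]
          exact hI (hI' (hL (orderEmbOfFin_mem _ _ _)))
        · simp only [Fin.snoc_last]
          exact hI (hI' (mem_sdiff.1 hy).1)
    obtain ⟨b, hb, hbc⟩ := exists_le_card_fiber_of_mul_le_card_of_maps_to (s := I' \ L) (t := A)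
      (f := fun y => ∑ z ∈ Z, ν y z * a z) (n := n) hval' (card_pos.1 hA) (by
        rw [card_sdiff_of_subset hL, hLc, ← hq]
        have : (q + r) * n = q * n + r * n := by ring
        have h2 : r ≤ r * n := Nat.le_mul_of_pos_right _ hn
        omega)
    refine ⟨(I' \ L).filter (fun y => ∑ z ∈ Z, ν y z * a z = b), ?_, hbc, b, ?_⟩
    · exact ((filter_subset _ _).trans sdiff_subset).trans (hI'.trans hI)
    · intro x hx hxH
      have h1 : x = (Fin.snoc (Fin.init x) (x (Fin.last r)) : Fin (r + 1) → ℕ) := by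
        rw [Fin.snoc_init_self]
      rw [h1, hdep (Fin.init x) (fun i j hij => hx (by simpa using hij))
        (fun i => (mem_sdiff.1 (mem_filter.1 (hxH i.castSucc)).1).1) (x (Fin.last r))
        (mem_sdiff.1 (mem_filter.1 (hxH (Fin.last r))).1).1]
      exact (mem_filter.1 (hxH (Fin.last r))).2

end Pool.Agent.TH360.SR
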