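import Pool.Agent.TH360.SR.Lin
import Pool.Agent.TH360.SR.ML

/-!
# The reference identity for functions of bounded slice rank
-/

set_option autoImplicit false

namespace Pool.Agent.TH360.SR

open Finset Module

/-- A signed sum over all ways to replace coordinates vanishes on each slice. -/
theorem ident {F : Type*} [Field F] {k w : ℕ} {O : Type*} [Fintype O]
    (p : Fin w → Fin (k + 1)) (f : Fin w → ℕ → F) (g : Fin w → (Fin k → ℕ) → F)
    (ζ : Fin (k + 1) → O → ℕ) (u : Fin (k + 1) → O → F)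
    (h : ∀ i s, ∑ o, u i o * f s (ζ i o) = 0) :
    ∑ α : Fin (k + 1) → O, (∏ i, u i (α i)) *
      (∑ s, f s (ζ (p s) (α (p s))) * g s ((p s).removeNth (fun i => ζ i (α i)))) = 0 := by
  simp only [Finset.mul_sum]
  rw [Finset.sum_comm]
  refine Finset.sum_eq_zero fun s _ => ?_
  rw [← (Fin.insertNthEquiv (fun _ : Fin (k + 1) => O) (p s)).sum_comp, Fintype.sum_prod_type,
    Finset.sum_comm]
  refine Finset.sum_eq_zero fun β _ => ?_
  have key : ∀ o : O, (∏ i, u i ((Fin.insertNthEquiv (fun _ : Fin (k + 1) => O) (p s)) (o, β) i)) *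
      (f s (ζ (p s) ((Fin.insertNthEquiv (fun _ : Fin (k + 1) => O) (p s)) (o, β) (p s))) *
        g s ((p s).removeNth (fun i => ζ i
          ((Fin.insertNthEquiv (fun _ : Fin (k + 1) => O) (p s)) (o, β) i)))) =
      (u (p s) o * f s (ζ (p s) o)) * ((∏ i, u ((p s).succAbove i) (β i)) *
        g s (fun i => ζ ((p s).succAbove i) (β i))) := by
    intro o
    rw [Fin.prod_univ_succAbove _ (p s)]
    have e : (p s).removeNth (fun i => ζ i
        ((Fin.insertNthEquiv (fun _ : Fin (k + 1) => O) (p s)) (o, β) i)) =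
        fun i => ζ ((p s).succAbove i) (β i) := by
      funext i
      simp [Fin.removeNth]
    rw [e]
    simp only [Fin.insertNthEquiv_apply, Fin.insertNth_apply_same, Fin.insertNth_apply_succAbove]
    ring
  rw [Finset.sum_congr rfl (fun o _ => key o), ← Finset.sum_mul, h, zero_mul]

/-- A sum of products of coordinates is a value of a multilinear form. -/
theorem ev_of_sum {F ι J : Type*} [Field F] [Fintype ι] [DecidableEq ι] [Fintype J] {r : ℕ}
    (ρ : ℕ → ι → F) (c : J → F) (T : J → (Fin r → ι)) (x : Fin r → ℕ) :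
    ∑ j, c j * ∏ i, ρ (x i) (T j i) = ev ρ (fun τ => ∑ j, if T j = τ then c j else 0) x := by
  classical
  unfold ev
  simp only [Finset.sum_mul]
  rw [Finset.sum_comm]
  refine Finset.sum_congr rfl fun j _ => ?_
  rw [Finset.sum_eq_single (T j)]
  · simp
  · intro τ _ hτ
    rw [if_neg (fun e => hτ e.symm), zero_mul]
  · simp

section

variable {F : Type*} [Field F] {k w : ℕ}

/-- the indices of the gaps: `0` and the successors of the earlier indices -/
def prv (h : Fin (k + 1) → ℕ) : Fin (k + 1) → ℕ := Fin.cons 0 (fun i : Fin k => h i.castSucc + 1)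

/-- the tuple in which some of the vertices `K (h i)` are replaced by reference points -/
def zz (K : ℕ → ℕ) (y : ℕ → Fin w → ℕ) (h : Fin (k + 1) → ℕ) (i : Fin (k + 1)) :
    Option (Fin w) → ℕ
  | none => K (h i)
  | some j => y (prv h i) j

/-- the weights -/
def uu (K : ℕ → ℕ) (b : ℕ → Fin w → (Fin w → F) →ₗ[F] F) (Φ : ℕ → (Fin w → F))
    (h : Fin (k + 1) → ℕ) (i : Fin (k + 1)) : Option (Fin w) → F
  | none => 1
  | some j => - b (prv h i) j (Φ (K (h i)))

/-- the coordinates of a vertex, with an additional coordinate `1` -/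
def ph (K : ℕ → ℕ) (Φ : ℕ → (Fin w → F)) (h : ℕ) : Option (Fin w) → F
  | none => 1
  | some l => Φ (K h) l

/-- the coefficients of a gap -/
def BB (b : ℕ → Fin w → (Fin w → F) →ₗ[F] F) (s : ℕ) : Option (Fin w) → Option (Fin w) → F
  | none, none => 1
  | some j, some l => - b s j (Pi.single l 1)
  | none, some _ => 0
  | some _, none => 0

/-- the vector of all products -/
def rho (K : ℕ → ℕ) (b : ℕ → Fin w → (Fin w → F) →ₗ[F] F) (Φ : ℕ → (Fin w → F)) (h : ℕ) :
    Option (Fin w) × Option (Fin w) × Option (Fin w) → F :=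
  fun t => ph K Φ h t.1 * BB b (h + 1) t.2.1 t.2.2

theorem uu_eq (K : ℕ → ℕ) (b : ℕ → Fin w → (Fin w → F) →ₗ[F] F) (Φ : ℕ → (Fin w → F))
    (h : Fin (k + 1) → ℕ) (i : Fin (k + 1)) (o : Option (Fin w)) :
    uu K b Φ h i o = ∑ l, BB b (prv h i) o l * ph K Φ (h i) l := by
  rw [Fintype.sum_option]
  cases o with
  | none => simp [uu, BB, ph]
  | some j =>
    simp only [uu, BB, ph, zero_mul, zero_add]
    have h1 : Φ (K (h i)) = ∑ l, Φ (K (h i)) l • (Pi.single l 1 : Fin w → F) := by
      funext t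
      rw [Finset.sum_apply]
      simp [Pi.single_apply]
    conv_lhs => rw [h1]
    rw [map_sum, ← Finset.sum_neg_distrib]
    refine Finset.sum_congr rfl fun l _ => ?_
    rw [map_smul, smul_eq_mul]
    ring

/-- the sequence shifted by one -/
def shf {O : Type*} (α : Fin (k + 1) → Option O) : Fin (k + 1) → Option O :=
  Fin.snoc (Fin.tail α) none

theorem prod_uu (K : ℕ → ℕ) (b : ℕ → Fin w → (Fin w → F) →ₗ[F] F) (Φ : ℕ → (Fin w → F))
    (h : Fin (k + 1) → ℕ) (α : Fin (k + 1) → Option (Fin w)) :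
    ∏ i, uu K b Φ h i (α i) = ∑ l : Fin (k + 1) → Option (Fin w), BB b 0 (α 0) (l 0) *
      ∏ i, rho K b Φ (h i) (l i, shf α i, shf l i) := by
  simp only [uu_eq]
  rw [Finset.prod_univ_sum, Fintype.piFinset_univ]
  refine Finset.sum_congr rfl fun l _ => ?_
  simp only [rho]
  rw [Finset.prod_mul_distrib, Finset.prod_mul_distrib]
  have h1 : ∏ i, BB b (prv h i) (α i) (l i) =
      BB b 0 (α 0) (l 0) * ∏ i, BB b (h i + 1) (shf α i) (shf l i) := by
    rw [Fin.prod_univ_succ, Fin.prod_univ_castSucc (fun i => BB b (h i + 1) (shf α i) (shf l i))]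
    simp only [prv, Fin.cons_zero, Fin.cons_succ, shf, Fin.snoc_castSucc, Fin.snoc_last, Fin.tail]
    simp [BB]
  rw [h1]
  ring

/-- A combination of the products of the weights is a multilinear form in the vectors `rho`. -/
theorem comb_eq (K : ℕ → ℕ) (b : ℕ → Fin w → (Fin w → F) →ₗ[F] F) (Φ : ℕ → (Fin w → F))
    (χ : (Fin (k + 1) → Option (Fin w)) → F) :
    ∃ κ : (Fin (k + 1) → Option (Fin w) × Option (Fin w) × Option (Fin w)) → F,
      ∀ h : Fin (k + 1) → ℕ, ∑ α, (∏ i, uu K b Φ h i (α i)) * χ α = ev (rho K b Φ) κ h := by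
  classical
  refine ⟨fun τ => ∑ j : (Fin (k + 1) → Option (Fin w)) × (Fin (k + 1) → Option (Fin w)),
    if (fun i => (j.2 i, shf j.1 i, shf j.2 i)) = τ then χ j.1 * BB b 0 (j.1 0) (j.2 0) else 0,
    fun h => ?_⟩
  rw [← ev_of_sum (rho K b Φ) (fun j : (Fin (k + 1) → Option (Fin w)) ×
    (Fin (k + 1) → Option (Fin w)) => χ j.1 * BB b 0 (j.1 0) (j.2 0))
    (fun j i => (j.2 i, shf j.1 i, shf j.2 i)) h]
  rw [Fintype.sum_prod_type]
  refine Finset.sum_congr rfl fun α _ => ?_
  rw [prod_uu, Finset.sum_mul]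
  refine Finset.sum_congr rfl fun l _ => ?_
  ring

end

end Pool.Agent.TH360.SR
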