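import Mathlib

/-!
# Reference points

Linear algebra for functions `Φ` from the integers to a finite dimensional vector space.
-/

set_option autoImplicit false

namespace Pool.Agent.TH360.SR

open Finset Module

/-- In a finite nonempty set `I` there are `w` points `y j` such that the vectors `Φ (y j)` span
the span of `Φ` on `I`, with coefficients which are linear functions on the whole space. -/
theorem refs {F : Type*} [Field F] {w : ℕ} (Φ : ℕ → (Fin w → F)) (I : Set ℕ) (hI : I.Nonempty) :
    ∃ (y : Fin w → ℕ) (b : Fin w → (Fin w → F) →ₗ[F] F), (∀ j, y j ∈ I) ∧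
      ∀ v ∈ Submodule.span F (Φ '' I), ∑ j, b j v • Φ (y j) = v := by
  classical
  obtain ⟨d, f, hdw, hfs, hspan, hli⟩ : ∃ (d : ℕ) (f : Fin d → (Fin w → F)), d ≤ w ∧
      (∀ i, f i ∈ Φ '' I) ∧ Submodule.span F (Set.range f) = Submodule.span F (Φ '' I) ∧
      LinearIndependent F f := by
    obtain ⟨f, hfs, hspan, hli⟩ := Submodule.exists_fun_fin_finrank_span_eq F (Φ '' I)
    refine ⟨_, f, ?_, hfs, hspan, hli⟩
    have h1 := Submodule.finrank_le (Submodule.span F (Φ '' I))
    rw [Module.finrank_fin_fun] at h1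
    exact h1
  choose y0 hy0I hy0 using hfs
  obtain ⟨i0, hi0⟩ := hI
  obtain ⟨g, hg⟩ := LinearMap.exists_leftInverse_of_injective (Fintype.linearCombination F f)
    (LinearMap.ker_eq_bot.2 hli.fintypeLinearCombination_injective)
  refine ⟨fun j => if h : j.val < d then y0 ⟨j, h⟩ else i0,
    fun j => if h : j.val < d then (LinearMap.proj (⟨j, h⟩ : Fin d)).comp g else 0, ?_, ?_⟩
  · intro j
    dsimp only
    split_ifs with h
    · exact hy0I _
    · exact hi0
  · intro v hv
    rw [← hspan] at hv
    obtain ⟨c, rfl⟩ := (Submodule.mem_span_range_iff_exists_fun F).1 hv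
    have hgc : g (∑ i, c i • f i) = c := by
      have := LinearMap.congr_fun hg c
      simpa [Fintype.linearCombination_apply] using this
    symm
    refine Fintype.sum_of_injective (Fin.castLE hdw) (Fin.castLE_injective hdw) _ _ ?_ ?_
    · intro j hj
      have : ¬ j.val < d := by
        intro h
        exact hj ⟨⟨j, h⟩, Fin.ext rfl⟩
      simp [this]
    · intro i
      have h1 : (Fin.castLE hdw i).val < d := i.2
      dsimp only
      rw [dif_pos h1, dif_pos h1]
      rw [LinearMap.comp_apply, hgc, LinearMap.proj_apply, hy0]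
      rfl

/-- Consecutive blocks of equal lengths on which `Φ` has the same span. -/
theorem blocks {F V : Type*} [Field F] [AddCommGroup V] [Module F V] [FiniteDimensional F V]
    (Φ : ℕ → V) (M : ℕ) (hM : 1 ≤ M) : ∀ d a : ℕ,
    finrank F (Submodule.span F (Φ '' Set.Ico a (a + M ^ (d + 1)))) ≤ d →
    ∃ a' L, a ≤ a' ∧ 1 ≤ L ∧ a' + M * L ≤ a + M ^ (d + 1) ∧ ∀ h < M,
      Submodule.span F (Φ '' Set.Ico (a' + h * L) (a' + (h + 1) * L)) =
        Submodule.span F (Φ '' Set.Ico a' (a' + M * L)) := by
  intro d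
  induction d with
  | zero =>
    intro a ha
    have h0 : Submodule.span F (Φ '' Set.Ico a (a + M ^ (0 + 1))) = ⊥ :=
      Submodule.finrank_eq_zero.1 (Nat.le_zero.1 ha)
    refine ⟨a, 1, le_rfl, le_rfl, by simp, fun h hh => ?_⟩
    have h1 : Submodule.span F (Φ '' Set.Ico a (a + M * 1)) = ⊥ := by
      simpa using h0
    rw [h1, eq_bot_iff, ← h1]
    apply Submodule.span_mono
    apply Set.image_mono
    intro x hx
    simp only [Set.mem_Ico, mul_one] at hx ⊢
    omega
  | succ d ih =>
    intro a ha
    by_cases hall : ∀ h < M,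
      Submodule.span F (Φ '' Set.Ico (a + h * M ^ (d + 1)) (a + (h + 1) * M ^ (d + 1))) =
        Submodule.span F (Φ '' Set.Ico a (a + M * M ^ (d + 1)))
    · refine ⟨a, M ^ (d + 1), le_rfl, Nat.one_le_pow _ _ hM, ?_, hall⟩
      rw [← pow_succ']
    · push Not at hall
      obtain ⟨h, hh, hne⟩ := hall
      have hsub : Submodule.span F (Φ '' Set.Ico (a + h * M ^ (d + 1)) (a + (h + 1) * M ^ (d + 1)))
          ≤ Submodule.span F (Φ '' Set.Ico a (a + M * M ^ (d + 1))) := by
        apply Submodule.span_mono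
        apply Set.image_mono
        intro x hx
        simp only [Set.mem_Ico] at hx ⊢
        have : (h + 1) * M ^ (d + 1) ≤ M * M ^ (d + 1) := Nat.mul_le_mul_right _ hh
        omega
      have hlt := Submodule.finrank_lt_finrank_of_lt (lt_of_le_of_ne hsub hne)
      rw [← pow_succ'] at hlt
      have e : a + (h + 1) * M ^ (d + 1) = (a + h * M ^ (d + 1)) + M ^ (d + 1) := by ring
      rw [e] at hlt
      obtain ⟨a', L, h1, h2, h3, h4⟩ := ih (a + h * M ^ (d + 1)) (by omega)
      refine ⟨a', L, by omega, h2, h3.trans ?_, h4⟩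
      rw [← e]
      have : (h + 1) * M ^ (d + 1) ≤ M ^ (d + 1 + 1) := by
        rw [pow_succ' M (d + 1)]
        exact Nat.mul_le_mul_right _ hh
      omega

end Pool.Agent.TH360.SR
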