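import Pool.Agent.TH360.SR.Gaps
import Pool.Agent.TH360.SR.Defs

/-!
# Ramsey numbers of colourings of bounded slice rank: reduction to smaller uniformity
-/

set_option autoImplicit false

namespace Pool.Agent.TH360.SR

open Finset Module

/-- Every colouring of the `k`-subsets of `{0, …, M - 1}` with the colours `Λ` has a homogeneous set
with at least `m` elements. -/
def Arr (k m M : ℕ) (Λ : Type) : Prop :=
  ∀ c : Finset ℕ → Λ, ∃ H ⊆ range M, m ≤ H.card ∧ Homogeneous k c H

theorem reduce {κ : Type} [Fintype κ] {F : Type*} [Field F] {k w N M n : ℕ} (c : Finset ℕ → κ)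
    (hc : SliceRankLE F w k N c) (hN : (2 * M) ^ (w + 1) ≤ N)
    (hR : Arr k (cst ((w + 1) ^ 3) (Fintype.card κ) (k + 1) * n) M
      ((Fin (k + 1) → Option (Fin w)) → κ)) :
    ∃ S ⊆ range N, S.card = n ∧ Homogeneous (k + 1) c S := by
  classical
  rcases Nat.eq_zero_or_pos n with rfl | hn
  · refine ⟨∅, by simp, rfl, fun A hA B hB _ _ => ?_⟩
    rw [subset_empty.1 hA, subset_empty.1 hB]
  have hq : 1 ≤ Fintype.card κ := Fintype.card_pos_iff.2 ⟨c ∅⟩
  have hM : 1 ≤ M := by
    obtain ⟨H, hH, hHc, -⟩ := hR (fun _ _ => c ∅)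
    have h1 := cst_pos ((w + 1) ^ 3) (Fintype.card κ) hq (k + 1)
    have h2 : 1 ≤ cst ((w + 1) ^ 3) (Fintype.card κ) (k + 1) * n :=
      Nat.one_le_iff_ne_zero.2 (by positivity)
    have h3 := card_le_card hH
    rw [card_range] at h3
    omega
  obtain ⟨a, p, f, g, ha, hT⟩ := hc
  obtain ⟨K, y, b, hK, hKN, h1, h2, h3⟩ := exists_gaps (fun x s => f s x) M N hM hN
  -- the colouring of the `k`-subsets
  let col : Finset ℕ → ((Fin (k + 1) → Option (Fin w)) → κ) := fun S α =>
    if hS : S.card = k then
      c (univ.image fun i => zz K y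
        ((mm α).insertNth 0 (S.orderEmbOfFin hS : Fin k → ℕ) : Fin (k + 1) → ℕ) i (α i))
    else c ∅
  obtain ⟨H, hH, hHc, hHom⟩ := hR col
  have hHM : ∀ h ∈ H, h < M := fun h hh => mem_range.1 (hH hh)
  -- the colours of the tuples with replaced coordinates are constant
  have hconst : ∀ h h' : Fin (k + 1) → ℕ, StrictMono h → StrictMono h' → (∀ i, h i ∈ H) →
      (∀ i, h' i ∈ H) → ∀ α : Fin (k + 1) → Option (Fin w), α ≠ (fun _ => none) →
      c (univ.image fun i => zz K y h i (α i)) = c (univ.image fun i => zz K y h' i (α i)) := by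
    intro h h' hh hh' hm hm' α hα
    have key : ∀ h : Fin (k + 1) → ℕ, StrictMono h → (∀ i, h i ∈ H) →
        ∃ S ⊆ H, S.card = k ∧ c (univ.image fun i => zz K y h i (α i)) = col S α := by
      intro h hh hm
      have hmono : StrictMono ((mm α).removeNth h) := fun i j hij =>
        hh ((Fin.strictMono_succAbove _) hij)
      have hcard : (univ.image ((mm α).removeNth h)).card = k := by
        rw [card_image_of_injective _ hmono.injective, card_univ, Fintype.card_fin]
      refine ⟨univ.image ((mm α).removeNth h), ?_, hcard, ?_⟩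
      · intro x hx
        obtain ⟨i, -, rfl⟩ := mem_image.1 hx
        exact hm _
      · have he : ((univ.image ((mm α).removeNth h)).orderEmbOfFin hcard : Fin k → ℕ) =
            (mm α).removeNth h :=
          (orderEmbOfFin_unique hcard (fun i => mem_image_of_mem _ (mem_univ i)) hmono).symm
        show _ = (if hS : _ then _ else _)
        rw [dif_pos hcard, he, zz_indep h α hα 0]
    obtain ⟨S, hS, hSc, e⟩ := key h hh hm
    obtain ⟨S', hS', hSc', e'⟩ := key h' hh' hm'
    rw [e, e', hHom S hS S' hS' hSc hSc']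
  -- the identity
  have hid : ∀ h : Fin (k + 1) → ℕ, StrictMono h → (∀ i, h i ∈ H) →
      ∑ α : Fin (k + 1) → Option (Fin w), (∏ i, uu K b (fun x s => f s x) h i (α i)) *
        a (c (univ.image fun i => zz K y h i (α i))) = 0 := by
    intro h hh hm
    have hhM : ∀ i, h i < M := fun i => hHM _ (hm i)
    have h5 := ident p f g (fun i o => zz K y h i o) (uu K b (fun x s => f s x) h) (by
      intro i s
      rw [Fintype.sum_option]
      simp only [uu, zz, one_mul]
      have h6 := congrFun (h3 (prv h i) (lt_of_le_of_lt (prv_le hh i) (hhM i)) (h i) (hhM i)) s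
      rw [Finset.sum_apply] at h6
      simp only [Pi.smul_apply, smul_eq_mul] at h6
      rw [← h6, ← Finset.sum_add_distrib]
      exact Finset.sum_eq_zero fun j _ => by ring)
    rw [← h5]
    refine Finset.sum_congr rfl fun α _ => ?_
    rw [hT _ (zz_mono hK h1 h2 hh hhM α) (fun i => zz_lt hKN h1 hh hhM i (α i))]
  -- a fixed increasing tuple gives the constants
  by_cases hHk : H.card < k + 1
  · -- the set is too small to contain `(k + 1)`-sets
    have hn' : n ≤ H.card := by
      refine le_trans ?_ hHc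
      exact Nat.le_mul_of_pos_left _ (cst_pos _ _ hq _)
    obtain ⟨H', hH', hH'c⟩ := exists_subset_card_eq hn'
    refine ⟨H'.map ⟨K, hK.injective⟩, ?_, by rw [card_map, hH'c], ?_⟩
    · intro x hx
      obtain ⟨h, hh, rfl⟩ := mem_map.1 hx
      exact mem_range.2 (hKN _ (hHM _ (hH' hh)))
    · intro A hA B hB hAc _
      have := card_le_card hA
      rw [card_map] at this
      have h8 := card_le_card hH'
      omega
  push Not at hHk
  obtain ⟨H₀, hH₀, hH₀c⟩ := exists_subset_card_eq hHk
  obtain ⟨h₀, hh₀m, hh₀H⟩ : ∃ h₀ : Fin (k + 1) → ℕ, StrictMono h₀ ∧ ∀ i, h₀ i ∈ H :=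
    ⟨H₀.orderEmbOfFin hH₀c, (H₀.orderEmbOfFin hH₀c).strictMono,
      fun i => hH₀ (orderEmbOfFin_mem _ _ _)⟩
  obtain ⟨χ, hχ⟩ := comb_eq (k := k) K b (fun x s => f s x)
    (fun α => if α = (fun _ => none) then 0 else
      - a (c (univ.image fun i => zz K y h₀ i (α i))))
  have hrep : ∀ h : Fin (k + 1) → ℕ, StrictMono h → (∀ i, h i ∈ H) →
      ev (rho K b (fun x s => f s x)) χ h = a (c (univ.image fun i => K (h i))) := by
    intro h hh hm
    rw [← hχ]
    have h6 := hid h hh hm
    rw [← Finset.add_sum_erase _ _ (mem_univ (fun _ : Fin (k + 1) => (none : Option (Fin w))))] at h6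
    rw [← Finset.add_sum_erase _ _ (mem_univ (fun _ : Fin (k + 1) => (none : Option (Fin w))))]
    simp only [if_true, mul_zero, zero_add]
    have h7 : ∏ i, uu K b (fun x s => f s x) h i none = 1 :=
      Finset.prod_eq_one fun i _ => rfl
    rw [h7, one_mul] at h6
    have h8 : c (univ.image fun i => zz K y h i none) = c (univ.image fun i => K (h i)) := rfl
    rw [h8] at h6
    rw [eq_neg_of_add_eq_zero_left h6, ← Finset.sum_neg_distrib]
    refine Finset.sum_congr rfl fun α hα => ?_
    have hα' : α ≠ (fun _ => none) := (mem_erase.1 hα).1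
    rw [if_neg hα', hconst h h₀ hh hh₀m hm hh₀H α hα']
    ring
  obtain ⟨H', hH', hH'c, v, hv⟩ := ml (rho K b (fun x s => f s x)) (univ.image a)
    (by rw [card_image_of_injective _ ha, card_univ]; exact hq) (k + 1) χ H n hn (by
      rw [card_image_of_injective _ ha, card_univ]
      have e : Fintype.card (Option (Fin w) × Option (Fin w) × Option (Fin w)) = (w + 1) ^ 3 := by
        simp only [Fintype.card_prod, Fintype.card_option, Fintype.card_fin]
        ring
      rw [e]
      exact hHc) (by
      intro x hx hxH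
      rw [hrep x hx hxH]
      exact mem_image_of_mem _ (mem_univ _))
  obtain ⟨H'', hH'', hH''c⟩ := exists_subset_card_eq hH'c
  refine ⟨H''.map ⟨K, hK.injective⟩, ?_, by rw [card_map, hH''c], ?_⟩
  · intro x hx
    obtain ⟨h, hh, rfl⟩ := mem_map.1 hx
    exact mem_range.2 (hKN _ (hHM _ (hH' (hH'' hh))))
  · have hone : ∀ A ⊆ H''.map ⟨K, hK.injective⟩, A.card = k + 1 → a (c A) = v := by
      intro A hA hAc
      obtain ⟨A', hA', rfl⟩ := subset_map_iff.1 hA
      rw [card_map] at hAc
      have hm : ∀ i, A'.orderEmbOfFin hAc i ∈ H' := fun i =>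
        hH'' (hA' (orderEmbOfFin_mem _ _ _))
      have e : A'.map ⟨K, hK.injective⟩ = univ.image fun i => K (A'.orderEmbOfFin hAc i) := by
        have e1 : univ.image (A'.orderEmbOfFin hAc) = A' := by
          apply eq_of_subset_of_card_le
          · intro x hx
            obtain ⟨i, -, rfl⟩ := mem_image.1 hx
            exact orderEmbOfFin_mem _ _ _
          · rw [card_image_of_injective _ (A'.orderEmbOfFin hAc).injective, card_univ,
              Fintype.card_fin, hAc]
        conv_lhs => rw [← e1]
        rw [map_eq_image, image_image]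
        rfl
      rw [e, ← hrep _ (A'.orderEmbOfFin hAc).strictMono (fun i => hH' (hm i))]
      exact hv _ (A'.orderEmbOfFin hAc).strictMono hm
    intro A hA B hB hAc hBc
    exact ha ((hone A hA hAc).trans (hone B hB hBc).symm)

end Pool.Agent.TH360.SR
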