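import Pool.Agent.TH138.NF.End
import Pool.Agent.TH360.SR.Main

/-!
# The upper bound of Erdős and Rado for many colours
-/

set_option autoImplicit false

namespace Pool.Agent.TH360.SR

open Finset Module

/-- Upper bound for the Ramsey number of `(s + 1)`-uniform colourings with `ℓ` colours and
homogeneous sets of size `m`. -/
def RB (ℓ m : ℕ) : ℕ → ℕ
  | 0 => ℓ * m
  | s + 1 => (2 * ℓ ^ ((s + 1) * (RB ℓ m s) ^ s)) ^ (RB ℓ m s)

theorem ramsey {Λ : Type} [Fintype Λ] (m : ℕ) : ∀ (s : ℕ) (V : Finset ℕ),
    RB (Fintype.card Λ) m s ≤ V.card → ∀ c : Finset ℕ → Λ,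
    ∃ H ⊆ V, m ≤ H.card ∧ Homogeneous (s + 1) c H := by
  classical
  intro s
  induction s with
  | zero =>
    intro V hV c
    have hℓ : 1 ≤ Fintype.card Λ := Fintype.card_pos_iff.2 ⟨c ∅⟩
    obtain ⟨b, -, hb⟩ := exists_le_card_fiber_of_mul_le_card_of_maps_to (s := V)
      (t := (univ : Finset Λ)) (f := fun v => c {v}) (n := m) (fun _ _ => mem_univ _)
      (univ_nonempty_iff.2 ⟨c ∅⟩) (by rw [card_univ]; exact hV)
    refine ⟨V.filter (fun v => c {v} = b), filter_subset _ _, hb, ?_⟩
    have h : ∀ A ⊆ V.filter (fun v => c {v} = b), A.card = 0 + 1 → c A = b := by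
      intro A hA hAc
      rw [zero_add, card_eq_one] at hAc
      obtain ⟨x, rfl⟩ := hAc
      exact (mem_filter.1 (hA (mem_singleton_self x))).2
    intro A hA B hB hAc hBc
    rw [h A hA hAc, h B hB hBc]
  | succ s ih =>
    intro V hV c
    set k := RB (Fintype.card Λ) m s with hk
    obtain ⟨v, W, -, hWc, hvV, hvm, hvW, -, h2⟩ := Pool.Agent.TH138.NF.end_hom (Λ := Λ) (s := s)
      (fun x => c (univ.image x)) V k (2 * Fintype.card Λ ^ ((s + 1) * k ^ s)) rfl hV k le_rfl
    have hW : W.Nonempty := by
      rw [← card_pos]
      refine lt_of_lt_of_le ?_ hWc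
      simp
    obtain ⟨w₀, hw₀⟩ := hW
    obtain ⟨H, hH, hHc, hHom⟩ := ih (range k) (by rw [card_range]) 
      (fun S => c (insert w₀ (S.image v)))
    have hvinj : Set.InjOn v (H : Set ℕ) := by
      intro i hi j hj hij
      have hi' : i < k := mem_range.1 (hH hi)
      have hj' : j < k := mem_range.1 (hH hj)
      rcases lt_trichotomy i j with h | h | h
      · exact absurd hij (hvm i j h hj').ne
      · exact h
      · exact absurd hij (hvm j i h hi').ne'
    refine ⟨H.image v, ?_, ?_, ?_⟩
    · intro x hx
      obtain ⟨i, hi, rfl⟩ := mem_image.1 hx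
      exact hvV i (mem_range.1 (hH hi))
    · rw [card_image_of_injOn hvinj]
      exact hHc
    · have key : ∀ A ⊆ H.image v, A.card = s + 1 + 1 → ∃ S ⊆ H, S.card = s + 1 ∧
          c A = c (insert w₀ (S.image v)) := by
        intro A hA hAc
        obtain ⟨A', hA', rfl⟩ := subset_image_iff.1 hA
        have hA'c : A'.card = s + 2 := by
          rw [card_image_of_injOn (hvinj.mono (by exact_mod_cast hA'))] at hAc
          exact hAc
        set e := A'.orderEmbOfFin hA'c with he
        have hem : StrictMono (e : Fin (s + 2) → ℕ) := e.strictMono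
        have heA : ∀ i, e i ∈ A' := fun i => orderEmbOfFin_mem _ _ _
        have himg : univ.image (e : Fin (s + 2) → ℕ) = A' := by
          apply eq_of_subset_of_card_le
          · intro x hx
            obtain ⟨i, -, rfl⟩ := mem_image.1 hx
            exact heA i
          · rw [card_image_of_injective _ hem.injective, card_univ, Fintype.card_fin, hA'c]
        refine ⟨univ.image (fun i : Fin (s + 1) => e i.castSucc), ?_, ?_, ?_⟩
        · intro x hx
          obtain ⟨i, -, rfl⟩ := mem_image.1 hx
          exact hA' (heA _)
        · rw [card_image_of_injective _ (fun i j hij => by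
            have := hem.injective hij
            exact Fin.castSucc_injective _ this), card_univ, Fintype.card_fin]
        · have h3 := h2 (fun i : Fin (s + 1) => e i.castSucc) (e (Fin.last _))
            (mem_range.1 (hH (hA' (heA _)))) (fun a => hem (Fin.castSucc_lt_last a)) w₀ hw₀
          have e1 : (Fin.snoc (fun a : Fin (s + 1) => v (e a.castSucc)) (v (e (Fin.last (s + 1)))) :
              Fin (s + 2) → ℕ) = fun i => v (e i) := by
            funext i
            rcases Fin.eq_castSucc_or_eq_last i with ⟨j, rfl⟩ | rfl
            · simp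
            · simp
          have e2 : univ.image (Fin.snoc (fun a : Fin (s + 1) => v (e a.castSucc)) w₀ :
              Fin (s + 2) → ℕ) =
              insert w₀ ((univ.image (fun i : Fin (s + 1) => e i.castSucc)).image v) := by
            ext x
            simp only [mem_image, mem_univ, true_and, mem_insert]
            constructor
            · rintro ⟨i, rfl⟩
              rcases Fin.eq_castSucc_or_eq_last i with ⟨j, rfl⟩ | rfl
              · right
                exact ⟨_, ⟨j, rfl⟩, by simp⟩
              · left
                simp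
            · rintro (rfl | ⟨a, ⟨j, rfl⟩, rfl⟩)
              · exact ⟨Fin.last _, by simp⟩
              · exact ⟨j.castSucc, by simp⟩
          rw [← e2, ← h3, e1]
          congr 1
          rw [← himg, image_image]
          rfl
      intro A hA B hB hAc hBc
      obtain ⟨S, hS, hSc, e⟩ := key A hA hAc
      obtain ⟨S', hS', hSc', e'⟩ := key B hB hBc
      rw [e, e']
      exact hHom S hS S' hS' hSc hSc'

theorem arr_RB (Λ : Type) [Fintype Λ] (m s : ℕ) : Arr (s + 1) m (RB (Fintype.card Λ) m s) Λ := by
  intro c
  exact ramsey m s (range _) (by rw [card_range]) c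

end Pool.Agent.TH360.SR
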