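import Pool.Agent.TH360.SR.Ramsey

/-!
# Explicit bounds
-/

set_option autoImplicit false

namespace Pool.Agent.TH360.SR

open Finset Module

theorem twr_mono (k : ℕ) {x y : ℕ} (h : x ≤ y) : twr k x ≤ twr k y := by
  induction k with
  | zero => exact h
  | succ k ih => exact Nat.pow_le_pow_right (by norm_num) ih

theorem le_twr (k x : ℕ) : x ≤ twr k x := by
  induction k with
  | zero => exact le_rfl
  | succ k ih => exact ih.trans Nat.lt_two_pow_self.le

theorem mul_twr (k a x : ℕ) (ha : 1 ≤ a) (hx : 1 ≤ x) : a * twr k x ≤ twr k (a * x) := by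
  induction k with
  | zero => exact le_rfl
  | succ k ih =>
    have h1 : a ≤ 2 ^ (a - 1) := by
      obtain ⟨b, rfl⟩ : ∃ b, a = b + 1 := ⟨a - 1, by omega⟩
      rw [Nat.add_sub_cancel]
      exact Nat.lt_two_pow_self
    have h2 : 1 ≤ twr k x := hx.trans (le_twr k x)
    calc a * 2 ^ twr k x ≤ 2 ^ (a - 1) * 2 ^ twr k x := Nat.mul_le_mul_right _ h1
      _ = 2 ^ (a - 1 + twr k x) := by rw [pow_add]
      _ ≤ 2 ^ (a * twr k x) := by
          apply Nat.pow_le_pow_right (by norm_num)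
          obtain ⟨b, rfl⟩ : ∃ b, a = b + 1 := ⟨a - 1, by omega⟩
          rw [Nat.add_sub_cancel, add_mul, one_mul]
          have : b ≤ b * twr k x := Nat.le_mul_of_pos_right _ h2
          omega
      _ ≤ 2 ^ twr k (a * x) := Nat.pow_le_pow_right (by norm_num) ih

/-- the logarithm of the constant of `ml` -/
theorem cst_le (D q : ℕ) (hD : 1 ≤ D) (hq : 1 ≤ q) : ∀ r, cst D q r ≤ 2 ^ (r * (D + q + r) * D ^ r)
  | 0 => by simp [cst]
  | r + 1 => by
    rw [cst_succ]
    have ih := cst_le D q hD hq r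
    have h1 : D + 1 ≤ 2 ^ D := Nat.lt_two_pow_self
    have h2 : q + r ≤ 2 ^ (q + r) := Nat.lt_two_pow_self.le
    calc (D + 1) * (cst D q r ^ D * (q + r)) ≤
        2 ^ D * ((2 ^ (r * (D + q + r) * D ^ r)) ^ D * 2 ^ (q + r)) :=
          Nat.mul_le_mul h1 (Nat.mul_le_mul (Nat.pow_le_pow_left ih _) h2)
      _ = 2 ^ (D + (r * (D + q + r) * D ^ r * D + (q + r))) := by
          rw [← pow_mul, ← pow_add, ← pow_add]
      _ ≤ 2 ^ ((r + 1) * (D + q + (r + 1)) * D ^ (r + 1)) := by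
          apply Nat.pow_le_pow_right (by norm_num)
          have h3 : 1 ≤ D ^ (r + 1) := Nat.one_le_pow _ _ hD
          have h4 : r * (D + q + r) * D ^ r * D = r * (D + q + r) * D ^ (r + 1) := by
            rw [pow_succ]; ring
          rw [h4]
          have h5 : (r + 1) * (D + q + (r + 1)) * D ^ (r + 1) =
              r * (D + q + r) * D ^ (r + 1) + (r + (D + q + (r + 1))) * D ^ (r + 1) := by ring
          rw [h5]
          have h6 : r + (D + q + (r + 1)) ≤ (r + (D + q + (r + 1))) * D ^ (r + 1) :=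
            Nat.le_mul_of_pos_right _ h3
          omega

/-- The Erdős-Rado bound in terms of towers. -/
theorem RB_le (ℓ m : ℕ) (hℓ : 1 ≤ ℓ) (hm : 1 ≤ m) : ∀ s,
    RB ℓ m (s + 1) ≤ twr (s + 1) ((2 * s + 2).factorial * (2 * ℓ * (ℓ * m)))
  | 0 => by
    have h1 : RB ℓ m 1 = (2 * ℓ) ^ (ℓ * m) := by
      simp [RB]
    rw [h1]
    have h2 : 2 * ℓ ≤ 2 ^ (2 * ℓ) := Nat.lt_two_pow_self.le
    refine (Nat.pow_le_pow_left h2 _).trans ?_
    rw [← pow_mul]
    exact Nat.pow_le_pow_right (by norm_num) (Nat.le_mul_of_pos_left _ (Nat.factorial_pos _))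
  | s + 1 => by
    have ih := RB_le ℓ m hℓ hm s
    set L := RB ℓ m (s + 1) with hL
    set X := (2 * s + 2).factorial * (2 * ℓ * (ℓ * m)) with hX
    have hX1 : 1 ≤ X := by
      have := Nat.factorial_pos (2 * s + 2)
      exact Nat.one_le_iff_ne_zero.2 (by positivity)
    have hRB : RB ℓ m (s + 1 + 1) = (2 * ℓ ^ ((s + 1 + 1) * L ^ (s + 1))) ^ L := rfl
    have hT : 1 ≤ twr s X := hX1.trans (le_twr _ _)
    have hℓX : ℓ ≤ twr (s + 1) X := by
      refine le_trans ?_ (le_twr (s + 1) X)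
      have h1 : 1 ≤ (2 * s + 2).factorial := Nat.factorial_pos _
      have h2 : ℓ * 1 ≤ ℓ * (2 * (ℓ * m)) :=
        Nat.mul_le_mul_left _ (Nat.one_le_iff_ne_zero.2 (by positivity))
      calc ℓ ≤ 2 * ℓ * (ℓ * m) := by nlinarith
        _ ≤ X := Nat.le_mul_of_pos_left _ h1
    set T := twr (s + 1) X with hTd
    have hT1 : 1 ≤ T := hX1.trans (le_twr _ _)
    have h1 : RB ℓ m (s + 1 + 1) ≤ 2 ^ ((s + 3) * T ^ (s + 3)) := by
      rw [hRB]
      have h2 : 2 * ℓ ^ ((s + 1 + 1) * L ^ (s + 1)) ≤ 2 ^ (1 + T * ((s + 2) * T ^ (s + 1))) := by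
        have e : 2 ^ (1 + T * ((s + 2) * T ^ (s + 1))) = 2 * (2 ^ T) ^ ((s + 2) * T ^ (s + 1)) := by
          rw [pow_add, pow_one, pow_mul]
        rw [e]
        apply Nat.mul_le_mul_left
        calc ℓ ^ ((s + 1 + 1) * L ^ (s + 1)) ≤ ℓ ^ ((s + 2) * T ^ (s + 1)) := by
              apply Nat.pow_le_pow_right hℓ
              exact Nat.mul_le_mul_left _ (Nat.pow_le_pow_left ih _)
          _ ≤ (2 ^ T) ^ ((s + 2) * T ^ (s + 1)) :=
              Nat.pow_le_pow_left (hℓX.trans Nat.lt_two_pow_self.le) _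
      calc (2 * ℓ ^ ((s + 1 + 1) * L ^ (s + 1))) ^ L ≤
          (2 ^ (1 + T * ((s + 2) * T ^ (s + 1)))) ^ L := Nat.pow_le_pow_left h2 _
        _ ≤ (2 ^ (1 + T * ((s + 2) * T ^ (s + 1)))) ^ T :=
            Nat.pow_le_pow_right (by positivity) ih
        _ = 2 ^ ((1 + T * ((s + 2) * T ^ (s + 1))) * T) := by rw [← pow_mul]
        _ ≤ 2 ^ ((s + 3) * T ^ (s + 3)) := by
            apply Nat.pow_le_pow_right (by norm_num)
            have h3 : T ≤ T ^ (s + 3) := Nat.le_self_pow (by omega) _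
            calc (1 + T * ((s + 2) * T ^ (s + 1))) * T = T + (s + 2) * T ^ (s + 3) := by ring
              _ ≤ (s + 3) * T ^ (s + 3) := by
                have : (s + 3) * T ^ (s + 3) = (s + 2) * T ^ (s + 3) + T ^ (s + 3) := by ring
                omega
    refine h1.trans ?_
    show 2 ^ _ ≤ 2 ^ _
    apply Nat.pow_le_pow_right (by norm_num)
    -- (s + 3) * T ^ (s + 3) ≤ twr (s + 1) _
    have h4 : (s + 3) * T ^ (s + 3) ≤ 2 ^ ((2 * s + 6) * twr s X) := by
      have h5 : s + 3 ≤ 2 ^ (s + 3) := Nat.lt_two_pow_self.le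
      calc (s + 3) * T ^ (s + 3) ≤ 2 ^ (s + 3) * (2 ^ twr s X) ^ (s + 3) :=
            Nat.mul_le_mul_right _ h5
        _ = 2 ^ ((s + 3) + twr s X * (s + 3)) := by rw [← pow_mul, ← pow_add]
        _ ≤ 2 ^ ((2 * s + 6) * twr s X) := by
            apply Nat.pow_le_pow_right (by norm_num)
            nlinarith
    refine h4.trans ?_
    show 2 ^ _ ≤ 2 ^ _
    apply Nat.pow_le_pow_right (by norm_num)
    refine (mul_twr s (2 * s + 6) X (by omega) hX1).trans ?_
    apply twr_mono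
    rw [hX, ← mul_assoc]
    apply Nat.mul_le_mul_right
    have e : (2 * (s + 1) + 2).factorial = (2 * s + 4) * ((2 * s + 3) * (2 * s + 2).factorial) := by
      rw [show 2 * (s + 1) + 2 = (2 * s + 3) + 1 by ring, Nat.factorial_succ,
        Nat.factorial_succ]
    rw [e, ← mul_assoc]
    apply Nat.mul_le_mul_right
    nlinarith

end Pool.Agent.TH360.SR
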